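import Pool.Agent.W128.VA.Stm

set_option autoImplicit false

namespace Pool.Agent.W143.VATCov

open Finset Pool.Agent.W128.VA

lemma cf_succ (k : ℤ) (j : ℕ) : ((j : ℂ) + 1) * cf k (j + 1) = -((k : ℂ) - j) * cf k j := by
  have h := Ring.choose_smul_choose k (Nat.le_succ j)
  have h1 : (j + 1 : ℕ) - j = 1 := by omega
  rw [Nat.succ_eq_add_one, h1, Ring.choose_one_right, Nat.choose_succ_self_right,
    nsmul_eq_mul] at h
  have h2 : (((j + 1 : ℕ) : ℤ) : ℂ) * ((Ring.choose k (j + 1) : ℤ) : ℂ) =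
      ((Ring.choose k j : ℤ) : ℂ) * (((k - (j : ℤ) : ℤ)) : ℂ) := by
    have := congrArg (fun z : ℤ => (z : ℂ)) h
    simpa using this
  push_cast at h2
  unfold cf
  rw [pow_succ]
  linear_combination (-((-1 : ℂ) ^ j)) * h2

theorem main : S_TCOV := by
  intro W _ _ T a b ha hb k n w
  show T (R a b k 0 n w) - R a b k 0 n (T w) = (-(n : ℂ)) • R a b k 0 (n - 1) w
  obtain ⟨N1, h1⟩ := b.tr w
  obtain ⟨N2, h2⟩ := b.tr (T w)
  obtain ⟨N3, h3⟩ := a.tr w
  obtain ⟨N4, h4⟩ := a.tr (T w)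
  set L : ℕ := (N1 - n + 1).toNat + (N2 - n).toNat + (N3 + 1).toNat + N4.toNat with hL
  rw [R_apply' a b k 0 n w L (fun j hj => h1 _ (by omega)) (fun j hj => h3 _ (by omega)),
    R_apply' a b k 0 n (T w) L (fun j hj => h2 _ (by omega)) (fun j hj => h4 _ (by omega)),
    R_apply' a b k 0 (n - 1) w L (fun j hj => h1 _ (by omega)) (fun j hj => h3 _ (by omega)),
    map_sum, ← Finset.sum_sub_distrib, Finset.smul_sum]
  set G : ℕ → W := fun j => ((j : ℂ) * cf k j) • (a.m (k - j) (b.m (n - 1 + j) w)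
    - ((-1 : ℂ) ^ k) • b.m (n + k - j) (a.m ((j : ℤ) - 1) w)) with hG
  have key : ∀ j ∈ range L, T (tm a.m b.m k 0 n j w) - tm a.m b.m k 0 n j (T w) =
      (-(n : ℂ)) • tm a.m b.m k 0 (n - 1) j w + (G (j + 1) - G j) := by
    intro j _
    have e1 : T (a.m (k - j) (b.m (n + j) w)) = a.m (k - j) (b.m (n + j) (T w))
        + (-((k : ℂ) - j)) • a.m (k - j - 1) (b.m (n + j) w)
        + (-((n : ℂ) + j)) • a.m (k - j) (b.m (n - 1 + j) w) := by
      have q1 := ha (k - j) (b.m (n + j) w)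
      have q2 := hb (n + j) w
      rw [sub_eq_iff_eq_add] at q1 q2
      rw [q1, q2, map_add, map_smul]
      have i1 : n + (j : ℤ) - 1 = n - 1 + j := by ring
      rw [i1]
      push_cast
      abel
    have e2 : T (b.m (n + k - j) (a.m j w)) = b.m (n + k - j) (a.m j (T w))
        + (-((n : ℂ) + k - j)) • b.m (n - 1 + k - j) (a.m j w)
        + (-(j : ℂ)) • b.m (n + k - j) (a.m ((j : ℤ) - 1) w) := by
      have q1 := hb (n + k - j) (a.m j w)
      have q2 := ha j w
      rw [sub_eq_iff_eq_add] at q1 q2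
      rw [q1, q2, map_add, map_smul]
      have i1 : n + k - (j : ℤ) - 1 = n - 1 + k - j := by ring
      rw [i1]
      push_cast
      abel
    have e3 : G (j + 1) = (-((k : ℂ) - j) * cf k j) • (a.m (k - j - 1) (b.m (n + j) w)
        - ((-1 : ℂ) ^ k) • b.m (n - 1 + k - j) (a.m j w)) := by
      simp only [hG]
      have i1 : k - ((j + 1 : ℕ) : ℤ) = k - j - 1 := by push_cast; ring
      have i2 : n - 1 + ((j + 1 : ℕ) : ℤ) = n + j := by push_cast; ring
      have i3 : n + k - ((j + 1 : ℕ) : ℤ) = n - 1 + k - j := by push_cast; ring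
      have i4 : ((j + 1 : ℕ) : ℤ) - 1 = j := by push_cast; ring
      rw [i1, i2, i3, i4, ← cf_succ]
      push_cast
      rfl
    rw [e3]
    simp only [hG, tm, zero_add, map_smul, map_sub, e1, e2]
    module
  rw [Finset.sum_congr rfl key, Finset.sum_add_distrib, Finset.sum_range_sub]
  have g0 : G 0 = 0 := by simp [hG]
  have gL : G L = 0 := by
    simp only [hG]
    rw [h1 (n - 1 + L) (by omega), h3 ((L : ℤ) - 1) (by omega)]
    simp
  rw [g0, gL, sub_zero, add_zero]

end Pool.Agent.W143.VATCov
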